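import Pool.Agent.H57.UGB.Defs

/-!
# The certificate: the Nullstellensatz on the fibre of the space of jets over the generic point
-/

set_option autoImplicit false

open MvPolynomial

namespace Pool.Agent.H57.UGB

open Pool.Agent.H47.KB Pool.Agent.H47.UG

section ff

variable {n d : ℕ} (T : FF d (genK n d)) (k : ℕ)

theorem cert (S : Set (Bk T k)) (x : Bk T k)
    (h : ∀ ξ : Fin k × Fin n → AlgebraicClosure T.L, (∀ q ∈ S, aeval ξ q = 0) → aeval ξ x = 0) :
    ∃ N : ℕ, x ^ N ∈ Ideal.span S := by
  have h1 : x ∈ (Ideal.span S).radical := by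
    rw [← vanishingIdeal_zeroLocus_eq_radical (K := AlgebraicClosure T.L), mem_vanishingIdeal_iff]
    intro c hc
    exact h c fun q hq => (mem_zeroLocus_iff.1 hc) _ (Ideal.subset_span hq)
  exact h1

end ff

end Pool.Agent.H57.UGB
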