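import Pool.Agent.H57.UGB.Api

/-!
# Block B: the value of a derivation at the equations of the universal space of jets
-/

set_option autoImplicit false

open MvPolynomial

namespace Pool.Agent.H11.UGB

open Pool.Agent.H47.KB Pool.Agent.H47.UG Pool.Agent.H57.UGB

/-- A derivation acting on the coefficients of power series. -/
noncomputable def cD {J : Type} [CommRing J] [Algebra ℂ J] (V : Derivation ℂ J J) :
    Derivation ℂ (PowerSeries J) (PowerSeries J) :=
  Derivation.mk' { toFun := fun f => PowerSeries.mk fun s => V (PowerSeries.coeff s f)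
                   map_add' := fun f g => by
                     ext s
                     simp
                   map_smul' := fun c f => by
                     ext s
                     simp } fun f g => by
    ext s
    simp only [LinearMap.coe_mk, AddHom.coe_mk, smul_eq_mul, map_add, PowerSeries.coeff_mk]
    rw [mul_comm g, PowerSeries.coeff_mul, PowerSeries.coeff_mul, PowerSeries.coeff_mul, map_sum,
      ← Finset.sum_add_distrib]
    refine Finset.sum_congr rfl fun x _ => ?_
    rw [Derivation.leibniz, PowerSeries.coeff_mk, PowerSeries.coeff_mk, smul_eq_mul, smul_eq_mul]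
    ring

theorem coeff_cD {J : Type} [CommRing J] [Algebra ℂ J] (V : Derivation ℂ J J) (f : PowerSeries J) (s : ℕ) :
    PowerSeries.coeff s (cD V f) = V (PowerSeries.coeff s f) := by
  change PowerSeries.coeff s (PowerSeries.mk fun s => V (PowerSeries.coeff s f)) = _
  rw [PowerSeries.coeff_mk]

theorem cD_C {J : Type} [CommRing J] [Algebra ℂ J] (V : Derivation ℂ J J) (c : J) :
    cD V (PowerSeries.C c) = PowerSeries.C (V c) := by
  ext s
  rw [coeff_cD, PowerSeries.coeff_C, PowerSeries.coeff_C]
  split_ifs
  · rfl
  · exact map_zero V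

/-- Leibniz rule for a polynomial with coefficients in `J`. -/
theorem cD_aeval {J σ : Type} [CommRing J] [Algebra ℂ J] [Fintype σ] (V : Derivation ℂ J J)
    (y : σ → PowerSeries J) (G : MvPolynomial σ J) (G' : MvPolynomial σ J)
    (hG : ∀ m, coeff m G' = V (coeff m G)) :
    cD V (aeval y G) = aeval y G' + ∑ j, aeval y (pderiv j G) * cD V (y j) := by
  classical
  have hm : ∀ (m : σ →₀ ℕ) (c : J), cD V (aeval y (monomial m c)) =
      aeval y (monomial m (V c)) + ∑ j, aeval y (pderiv j (monomial m c)) * cD V (y j) := by
    intro m c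
    induction m using Finsupp.induction_linear generalizing c with
    | zero =>
      have h1 : ∀ z : J, (aeval y) (monomial 0 z : MvPolynomial σ J) = PowerSeries.C z := by
        intro z
        rw [← C_apply, ← algebraMap_eq, AlgHom.commutes]
        rfl
      rw [h1, h1, cD_C, Finset.sum_eq_zero, add_zero]
      intro j _
      rw [← C_apply, pderiv_C, map_zero, zero_mul]
    | add f g hf hg =>
      have h1 : ∀ z : J, (monomial (f + g) z : MvPolynomial σ J) = monomial f z * monomial g 1 := by
        intro z
        rw [monomial_mul, mul_one]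
      have h2 : (aeval y) (monomial f c) * cD V ((aeval y) (monomial g (1 : J))) =
          (aeval y) (monomial f c) * ∑ j, aeval y (pderiv j (monomial g (1 : J))) * cD V (y j) := by
        rw [hg 1, Derivation.map_one_eq_zero, map_zero, map_zero, zero_add]
      rw [h1, h1, map_mul, Derivation.leibniz, smul_eq_mul, smul_eq_mul, h2, hf, map_mul, mul_add,
        Finset.mul_sum, Finset.mul_sum, add_left_comm, ← Finset.sum_add_distrib]
      congr 1
      · exact mul_comm _ _
      · refine Finset.sum_congr rfl fun j _ => ?_
        rw [Derivation.leibniz, smul_eq_mul, smul_eq_mul, map_add, map_mul, map_mul]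
        ring
    | single i a =>
      have h1 : ∀ z : J, (monomial (Finsupp.single i a) z : MvPolynomial σ J) = C z * X i ^ a := by
        intro z
        rw [C_mul_X_pow_eq_monomial]
      have h3 : ∀ z : J, (aeval y) (C z : MvPolynomial σ J) = PowerSeries.C z := by
        intro z
        rw [← algebraMap_eq, AlgHom.commutes]
        rfl
      have h5 : ∀ z : J, (aeval y) (C z * X i ^ a : MvPolynomial σ J) = PowerSeries.C z * y i ^ a := by
        intro z
        rw [map_mul, h3, map_pow, aeval_X]
      rw [h1, h1, h5, h5, Derivation.leibniz, cD_C, smul_eq_mul,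
        smul_eq_mul, Derivation.leibniz_pow, add_comm, mul_comm (y i ^ a)]
      congr 1
      rw [Finset.sum_eq_single i]
      · rw [Derivation.leibniz, pderiv_C, smul_zero, add_zero, Derivation.leibniz_pow, pderiv_X_self]
        simp only [nsmul_eq_mul, smul_eq_mul, map_mul, h3, map_pow, aeval_X, map_natCast, mul_one]
        ring
      · intro j _ hj
        rw [Derivation.leibniz, pderiv_C, smul_zero, add_zero, Derivation.leibniz_pow,
          pderiv_X_of_ne hj.symm]
        simp
      · intro h
        exact absurd (Finset.mem_univ i) h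
  have hG' : G' = ∑ m ∈ G.support, monomial m (V (coeff m G)) := by
    ext m
    rw [hG, coeff_sum]
    simp only [coeff_monomial, Finset.sum_ite_eq', mem_support_iff, ne_eq]
    split_ifs with h
    · rw [h, map_zero]
    · rfl
  rw [hG']
  conv_lhs => rw [G.as_sum]
  have h4 : ∀ j, pderiv j G = ∑ m ∈ G.support, pderiv j (monomial m (coeff m G)) := by
    intro j
    conv_lhs => rw [G.as_sum]
    rw [map_sum]
  rw [map_sum, map_sum, map_sum, Finset.sum_congr rfl fun m _ => hm m (coeff m G),
    Finset.sum_add_distrib, Finset.sum_comm]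
  congr 1
  refine Finset.sum_congr rfl fun j _ => ?_
  rw [h4, map_sum, Finset.sum_mul]

/-- The value of a derivation at the equations. -/
theorem der_Fc {n k : ℕ} (d : ℕ) (V : Derivation ℂ (JR n k) (JR n k)) (s : ℕ) :
    V (Fc n d k s) = PowerSeries.coeff s (aeval (uy n k) (gen n d fun α => V (X (Sum.inl α)))) +
      ∑ j, PowerSeries.coeff s (aeval (uy n k) (pderiv j (gen n d (ua n k))) *
        PowerSeries.mk fun s => V (PowerSeries.coeff s (uy n k j))) := by
  classical
  unfold Fc
  rw [← coeff_cD, cD_aeval V (uy n k) (gen n d (ua n k)) (gen n d fun α => V (X (Sum.inl α))), map_add,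
    map_sum]
  · rfl
  · intro m
    unfold gen
    rw [coeff_sum, coeff_sum, map_sum]
    refine Finset.sum_congr rfl fun α _ => ?_
    rw [coeff_monomial, coeff_monomial]
    split_ifs
    · rfl
    · exact (map_zero V).symm

/-- The image under `pt a y` of the value of a polynomial at the universal jet. -/
theorem eqk_map {n k : ℕ} {R : Type} [CommRing R] [Algebra ℂ R] (a : (Fin (n + 2) →₀ ℕ) → R)
    (y : Fin (n + 2) → PowerSeries R) (G : MvPolynomial (Fin (n + 2)) (JR n k)) :
    Eqk k (PowerSeries.map ((pt a y : JR n k →ₐ[ℂ] R) : JR n k →+* R) (aeval (uy n k) G))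
      (aeval y (map ((pt a y : JR n k →ₐ[ℂ] R) : JR n k →+* R) G)) := by
  induction G using MvPolynomial.induction_on with
  | C z =>
    rw [← algebraMap_eq, AlgHom.commutes, algebraMap_eq, map_C, ← algebraMap_eq, AlgHom.commutes]
    intro s _
    change PowerSeries.coeff s (PowerSeries.map _ (PowerSeries.C z)) = PowerSeries.coeff s (PowerSeries.C _)
    rw [PowerSeries.map_C]
  | add p q hp hq =>
    rw [map_add, map_add, map_add, map_add]
    exact hp.add hq
  | mul_X p j hp =>
    rw [map_mul, map_mul, map_mul, map_mul, aeval_X, map_X, aeval_X]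
    exact hp.mul fun s hs => coeff_map_uy a y j hs

/-- The value of a derivation at the equations, at the point `(a, y)`. -/
theorem pt_der_Fc {n k : ℕ} (d : ℕ) (V : Derivation ℂ (JR n k) (JR n k)) {s : ℕ} (hs : s ≤ k)
    {R : Type} [CommRing R] [Algebra ℂ R] (a : (Fin (n + 2) →₀ ℕ) → R) (y : Fin (n + 2) → PowerSeries R) :
    pt a y (V (Fc n d k s)) =
      PowerSeries.coeff s (aeval y (gen n d fun α => pt a y (V (X (Sum.inl α))))) +
      ∑ j, PowerSeries.coeff s (aeval y (pderiv j (gen n d a)) *
        PowerSeries.mk fun s => pt a y (V (PowerSeries.coeff s (uy n k j)))) := by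
  rw [der_Fc, map_add, map_sum]
  have h0 : ∀ f : PowerSeries (JR n k), pt a y (PowerSeries.coeff s f) =
      PowerSeries.coeff s (PowerSeries.map ((pt a y : JR n k →ₐ[ℂ] R) : JR n k →+* R) f) := by
    intro f
    rw [PowerSeries.coeff_map]
    rfl
  have h1 : (fun α => ((pt a y : JR n k →ₐ[ℂ] R) : JR n k →+* R) (ua n k α)) = a := by
    funext α
    simp [ua]
  congr 1
  · rw [h0, eqk_map a y _ s hs, map_gen]
    rfl
  · refine Finset.sum_congr rfl fun j _ => ?_
    rw [h0, map_mul]
    refine Eqk.mul (k := k) ?_ ?_ s hs
    · have h2 := eqk_map a y (pderiv j (gen n d (ua n k)))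
      rw [← pderiv_map, map_gen, h1] at h2
      exact h2
    · intro i _
      rw [PowerSeries.coeff_map, PowerSeries.coeff_mk, PowerSeries.coeff_mk]
      rfl

end Pool.Agent.H11.UGB
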