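import Mathlib

/-!
# Block B: powers of a power series with unit derivative are independent
-/

set_option autoImplicit false

namespace Pool.Agent.H11.UGB

open PowerSeries

variable {R : Type} [CommRing R]

theorem coeff_pow_lt {z : PowerSeries R} (hz : constantCoeff z = 0) {s r : ℕ} (h : s < r) :
    coeff s (z ^ r) = 0 := by
  obtain ⟨u, hu⟩ := X_dvd_iff.2 hz
  rw [hu, mul_pow, coeff_X_pow_mul', if_neg (by omega)]

theorem coeff_pow_self {z : PowerSeries R} (hz : constantCoeff z = 0) (r : ℕ) :
    coeff r (z ^ r) = coeff 1 z ^ r := by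
  obtain ⟨u, hu⟩ := X_dvd_iff.2 hz
  have hu1 : coeff 1 z = constantCoeff u := by
    have h := coeff_X_pow_mul' u 1 1
    rw [pow_one, if_pos le_rfl, Nat.sub_self] at h
    rw [hu, h, coeff_zero_eq_constantCoeff_apply]
  rw [hu1, hu, mul_pow, coeff_X_pow_mul', if_pos le_rfl, Nat.sub_self, coeff_zero_eq_constantCoeff_apply,
    map_pow]

/-- Powers of `z = y t + ..`: if `∑ ρ_r z^r = 0` modulo `t^(k+1)`, then a power of `y` kills the `ρ_r`. -/
theorem vand0 (k : ℕ) (z : PowerSeries R) (hz : constantCoeff z = 0) (ρ : ℕ → R)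
    (h : ∀ s ≤ k, coeff s (∑ r ∈ Finset.range (k + 1), C (ρ r) * z ^ r) = 0) :
    ∃ M : ℕ, ∀ r ≤ k, (coeff 1 z) ^ M * ρ r = 0 := by
  have key : ∀ q ≤ k + 1, ∃ M : ℕ, ∀ r < q, (coeff 1 z) ^ M * ρ r = 0 := by
    intro q
    induction q with
    | zero => exact fun _ => ⟨0, fun r hr => absurd hr (Nat.not_lt_zero r)⟩
    | succ q ih =>
      intro hq
      obtain ⟨M, hM⟩ := ih (by omega)
      refine ⟨M + q, fun r hr => ?_⟩
      rcases Nat.lt_succ_iff_lt_or_eq.1 hr with h1 | h1
      · rw [pow_add, mul_right_comm, hM r h1, zero_mul]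
      · subst h1
        have h2 := congrArg (fun x => (coeff 1 z) ^ M * x) (h r (by omega))
        simp only [mul_zero] at h2
        rw [map_sum, Finset.mul_sum, Finset.sum_eq_single r] at h2
        · rw [coeff_C_mul, coeff_pow_self hz] at h2
          rw [pow_add, ← h2]
          ring
        · intro r' _ hr'
          rw [coeff_C_mul]
          rcases lt_or_gt_of_ne hr' with h3 | h3
          · rw [← mul_assoc, hM r' h3, zero_mul]
          · rw [coeff_pow_lt hz h3, mul_zero, mul_zero]
        · intro h3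
          exact absurd (Finset.mem_range.2 (by omega)) h3
  obtain ⟨M, hM⟩ := key (k + 1) le_rfl
  exact ⟨M, fun r hr => hM r (by omega)⟩

/-- The same for a power series `f` with any constant coefficient. -/
theorem vand (k : ℕ) (f : PowerSeries R) (ρ : ℕ → R)
    (h : ∀ s ≤ k, coeff s (∑ r ∈ Finset.range (k + 1), C (ρ r) * f ^ r) = 0) :
    ∃ M : ℕ, ∀ r ≤ k, (coeff 1 f) ^ M * ρ r = 0 := by
  classical
  -- the polynomial `p = ∑ ρ_r X^r` and its Taylor expansion at the constant coefficient
  let p : Polynomial R := ∑ r ∈ Finset.range (k + 1), Polynomial.monomial r (ρ r)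
  have hpc : ∀ r ≤ k, p.coeff r = ρ r := by
    intro r hr
    simp only [p, Polynomial.finsetSum_coeff, Polynomial.coeff_monomial]
    rw [Finset.sum_ite_eq' , if_pos (Finset.mem_range.2 (by omega))]
  have hpd : p.natDegree ≤ k := by
    refine Polynomial.natDegree_sum_le_of_forall_le _ _ fun r hr => ?_
    exact (Polynomial.natDegree_monomial_le _).trans (by have := Finset.mem_range.1 hr; omega)
  set c : R := constantCoeff f with hc
  let z : PowerSeries R := f - C c
  have hz : constantCoeff z = 0 := by simp [z, hc]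
  let q : Polynomial R := Polynomial.taylor c p
  have hqd : q.natDegree ≤ k := by
    rw [Polynomial.natDegree_taylor]
    exact hpd
  have hev : ∀ (g : PowerSeries R) (P : Polynomial R), P.natDegree ≤ k →
      Polynomial.aeval g P = ∑ r ∈ Finset.range (k + 1), C (P.coeff r) * g ^ r := by
    intro g P hP
    rw [Polynomial.aeval_eq_sum_range' (Nat.lt_succ_of_le hP)]
    refine Finset.sum_congr rfl fun r _ => ?_
    rw [smul_eq_C_mul]
  have h1 : Polynomial.aeval z q = Polynomial.aeval f p := by
    change Polynomial.aeval z (Polynomial.taylor c p) = _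
    rw [Polynomial.taylor_apply, Polynomial.aeval_comp]
    congr 2
    simp only [map_add, Polynomial.aeval_X, Polynomial.aeval_C, z]
    exact sub_add_cancel f _
  have h2 : ∀ s ≤ k, coeff s (∑ r ∈ Finset.range (k + 1), C (q.coeff r) * z ^ r) = 0 := by
    intro s hs
    rw [← hev z q hqd, h1, hev f p hpd, ← h s hs]
    congr 1
    refine Finset.sum_congr rfl fun r hr => ?_
    rw [hpc r (by have := Finset.mem_range.1 hr; omega)]
  obtain ⟨M, hM⟩ := vand0 k z hz _ h2
  have hz1 : coeff 1 z = coeff 1 f := by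
    simp [z]
  refine ⟨M, fun r hr => ?_⟩
  -- back: `p = taylor (-c) q`
  have h3 : Polynomial.C (coeff 1 f ^ M) * q = 0 := by
    ext i
    rw [Polynomial.coeff_C_mul, Polynomial.coeff_zero]
    by_cases hi : i ≤ k
    · rw [← hz1]
      exact hM i hi
    · rw [Polynomial.coeff_eq_zero_of_natDegree_lt (by omega), mul_zero]
  have h4 : Polynomial.C (coeff 1 f ^ M) * p = 0 := by
    have h5 : Polynomial.taylor c (Polynomial.C (coeff 1 f ^ M) * p) = 0 := by
      rw [Polynomial.taylor_mul, Polynomial.taylor_C]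
      exact h3
    exact (Polynomial.taylor_injective c) (by rw [h5, map_zero])
  have h5 := congrArg (fun P => Polynomial.coeff P r) h4
  simp only [Polynomial.coeff_C_mul, Polynomial.coeff_zero] at h5
  rw [hpc r hr] at h5
  exact h5

end Pool.Agent.H11.UGB
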